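import Pool.Agent.Run7.h168.UQ7

set_option autoImplicit false

/-! # A univoque base below `q_max` with at most one point in its level set (MP_bdab2f_nt, Q2 is false)

`Q = 1.8767385...` is the base in which `1` has the unique expansion `11100(10)^∞`. -/

namespace Pool.Agent.Results.MP_bdab2f_nt.SinglePointLevelSet

open Pool.Agent.R341.Uni

/-- The smallest univoque base function `q_s(x) = inf U(x)`, where
`Ux x = {q | 1 < q ∧ q ≤ 2 ∧ x has exactly one q-expansion}`. -/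
noncomputable def qs (x : ℝ) : ℝ := sInf (Ux x)

/-- The level set of `q_s` at `q`. -/
def L (q : ℝ) : Set ℝ := {x | 0 < x ∧ qs x = q}

/-- The largest value of `q_s` on `(0, ∞)`. -/
noncomputable def qmax : ℝ := sSup (qs '' Set.Ioi 0)

/-- **Q2 is false.** Every `Ux x`, `x > 0`, is non-empty and `q_s` is bounded above (so that `q_s` and
`q_max` are honest), and there is a base `Q` which is even univoque (`Q ∈ Ux 1`), so in the closure of
`Ux 1`, with `Q < q_max`, whose level set `L(Q)` has at most one point; in particular `L(Q)` is finite. -/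
theorem result : (∀ x : ℝ, 0 < x → (Ux x).Nonempty) ∧ BddAbove (qs '' Set.Ioi 0) ∧
    ∃ Q : ℝ, Q ∈ Ux 1 ∧ Q ∈ closure (Ux 1) ∧ 1.8767385 < Q ∧ Q < 1.8767386 ∧ Q < qmax ∧
      (L Q).Subsingleton ∧ (L Q).Finite := by
  have hne : ∀ x : ℝ, 0 < x → (Ux x).Nonempty := fun x hx => by
    obtain ⟨q, hq, -⟩ := F1 hx
    exact ⟨q, hq⟩
  have hbdd : BddAbove (qs '' Set.Ioi 0) := by
    refine ⟨(BB : ℝ), ?_⟩
    rintro _ ⟨x, hx, rfl⟩
    obtain ⟨q', h1, h2⟩ := F1 hx
    exact (csInf_le (bdd_Ux x) h1).trans h2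
  refine ⟨hne, hbdd, ?_⟩
  obtain ⟨Q, h1, h2, h3, h4⟩ := Pool.Agent.Run7.h168.UQ.exists_Q
  have hQU : Q ∈ Ux 1 := mem_Ux.2 ⟨by linarith, by linarith, _, h3, h4⟩
  have hsub : (L Q).Subsingleton := by
    intro x hx y hy
    rw [Pool.Agent.Run7.h168.UQ.level_one h1 h2 h3 h4 hx.1 hx.2,
      Pool.Agent.Run7.h168.UQ.level_one h1 h2 h3 h4 hy.1 hy.2]
  refine ⟨Q, hQU, subset_closure hQU, h1, h2, ?_, hsub, hsub.finite⟩
  -- the golden section
  set c : ℝ := (Real.sqrt 5 - 1) / 2 with hc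
  have h5 : Real.sqrt 5 ^ 2 = 5 := Real.sq_sqrt (by norm_num)
  have h5' : 1 < Real.sqrt 5 := by
    rw [Real.lt_sqrt (by norm_num)]; norm_num
  have hc0 : 0 < c := by rw [hc]; linarith
  have hc1 : c ^ 2 + c = 1 := by rw [hc]; nlinarith
  have h6 : (LL : ℝ) ≤ qs c := le_csInf (hne c hc0) fun q hq => F3 hc0 hc1 hq
  have h7 : qs c ≤ qmax := le_csSup hbdd ⟨c, hc0, rfl⟩
  have h8 : (LL : ℝ) = 1.888444 := by unfold LL; norm_num
  rw [h8] at h6
  linarith

end Pool.Agent.Results.MP_bdab2f_nt.SinglePointLevelSet
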